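import Mathlib
import Pool.Agent.X90.DK.LinH
import Pool.Agent.X90.DD.Small

/-!
# MP_a57f33_nt: relations between motivic multiple zeta values, for almost all families of indices

Q1 says that every linear relation between motivic multiple zeta values follows from the regularized double shuffle
relations, that is, it holds for the classes of the indices in the algebra defined by these relations. This algebra is
commutative and the classes have the stuffle product.

Let `H` be the algebra of motivic multiple zeta values, more generally any `ℚ`-algebra without zero divisors, with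
elements for the indices that have the stuffle product, and a ring homomorphism `per : H → ℂ` that maps these elements to
the multiple zeta values. Let `𝒜` be any class of families of elements of commutative rings that have the stuffle
product, for example the single family of the classes modulo the double shuffle relations. The following are equivalent.

(a) For every `n ≤ W` the linear relations of weight `n` between the elements of `H` hold on `𝒜`.

(b) Let `w_1, …, w_r` be patterns: indices whose entries are fixed numbers or linear forms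
`b + u_1 s_1 + ⋯ + u_k s_k` in variables, such as `(2, 3, s_1)`, `(s_1, 3, s_1 + s_2)`; the fixed entries in front of
the first entry that depends on the variables have sum at most `W`. Then for large `N` and for all but `K N ^ (k - 1)` of
the tuples `s ∈ [N, κ N] ^ k` every relation `∑ c_i mot(w_i(s)) = 0` in `H` between elements of the same weight, with
integers `|c_i| ≤ C ^ N`, holds on `𝒜`. Here `C` is arbitrary and `K` does not depend on `C`.

So Q1 is equivalent to its version for almost all `s` and relations of height at most `C ^ N`, and (b) holds for all `W`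
up to which Q1 is known by computation. Nothing about the real multiple zeta values is assumed: all relations are
relations in `H`.

Proof (`Pool/Agent/X90/DC`, `DD`, `DK`): the elements with a fixed part are integer combinations of products
`mot(p) mot(v(s))`, where `p` is an initial segment of the fixed part and `v` a pattern without fixed part; a `ℚ`-basis of
the span of the `mot(p)` in `H` is eliminated with the stuffle product at several tuples in general position, as `H` has
no zero divisors, and the period map turns the result into a relation between real values without fixed parts, which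
is trivial by the starting library.
-/

set_option autoImplicit false

namespace Pool.Agent.Results.MP_a57f33_nt.AlmostAllMotivic

/-- `trunc [s_1, ..., s_r] m` is the sum of `∏ k_i ^ (-s_i)` over `m > k_1 > ... > k_r ≥ 1` -/
noncomputable def trunc : List ℕ → ℕ → ℝ
  | [], _ => 1
  | s :: l, m => ∑ j ∈ Finset.Ico 1 m, trunc l j / (j : ℝ) ^ s

/-- the multiple zeta value `ζ(s_1, ..., s_r)`, `s_1` belongs to the largest variable -/
noncomputable def mzv : List ℕ → ℝ
  | [] => 1
  | s :: l => ∑' k : ℕ, trunc l (k + 1) / ((k + 1 : ℕ) : ℝ) ^ s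

/-- admissible indices: `(s_1, ..., s_r)` with `r ≥ 1`, `s_1 ≥ 2` and all `s_i ≥ 1` -/
def AdmissibleIndex : List ℕ → Prop
  | [] => False
  | s :: l => 2 ≤ s ∧ ∀ t ∈ l, 1 ≤ t

/-- the list of the indices in the stuffle (series) product of two indices -/
def stuffles : List ℕ → List ℕ → List (List ℕ)
  | [], l => [l]
  | i :: k, [] => [i :: k]
  | i :: k, j :: l => (stuffles k (j :: l)).map (i :: ·) ++ (stuffles (i :: k) l).map (j :: ·) ++
      (stuffles k l).map ((i + j) :: ·)
termination_by k l => k.length + l.length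

/-- a pattern in the variables `s_1, …, s_k`: a nonempty list of letters `(b, u)`, different from
`(0, 0)`, the first letter is also different from `(1, 0)` -/
def Pattern {k : ℕ} (w : List (ℕ × (Fin k → ℕ))) : Prop :=
  w ≠ [] ∧ (∀ u ∈ w.head?, u.2 ≠ 0 ∨ 2 ≤ u.1) ∧ ∀ u ∈ w, u.2 ≠ 0 ∨ 1 ≤ u.1

/-- the index of a pattern: the letter `(b, u)` becomes `b + ∑ u_j s_j` -/
def index {k : ℕ} (s : Fin k → ℕ) (w : List (ℕ × (Fin k → ℕ))) : List ℕ :=
  w.map fun u => u.1 + ∑ j, u.2 j * s j

/-- the list of the numbers `b` of the letters `(b, 0)` in front of the first letter `(b, u)` with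
`u ≠ 0` -/
def fixedPart {k : ℕ} : List (ℕ × (Fin k → ℕ)) → List ℕ
  | [] => []
  | u :: w => open Classical in if u.2 = 0 then u.1 :: fixedPart w else []

/-- a `ℚ`-algebra without zero divisors, elements for the indices with the stuffle product, and a
period map; the motivic multiple zeta values are the main example -/
structure MotivicValues where
  /-- the algebra -/
  H : Type
  [ring : CommRing H]
  [dom : IsDomain H]
  [alg : Algebra ℚ H]
  /-- the elements -/
  mot : List ℕ → H
  mot_nil : mot [] = 1
  stuffle : ∀ k l : List ℕ, AdmissibleIndex k → AdmissibleIndex l →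
    mot k * mot l = ((stuffles k l).map mot).sum
  /-- the period map -/
  per : H →+* ℂ
  per_mot : ∀ k : List ℕ, AdmissibleIndex k → per (mot k) = (mzv k : ℂ)

attribute [instance] MotivicValues.ring MotivicValues.dom MotivicValues.alg

/-- elements of a commutative ring for the indices, with the stuffle product -/
structure StuffleFamily where
  /-- the ring -/
  A : Type
  [ring : CommRing A]
  /-- the elements -/
  Z : List ℕ → A
  stuffle : ∀ k l : List ℕ, AdmissibleIndex k → AdmissibleIndex l →
    Z k * Z l = ((stuffles k l).map Z).sum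

attribute [instance] StuffleFamily.ring

/-- the linear relations of weight `n` between the elements `mot(p)` hold on `𝒜` -/
def HoldsInWeight (G : MotivicValues) (𝒜 : Set StuffleFamily) (n : ℕ) : Prop :=
  ∀ (m : ℕ) (p : Fin m → List ℕ), (∀ i, AdmissibleIndex (p i) ∧ (p i).sum = n) →
    ∀ a : Fin m → ℤ, ∑ i, (a i : G.H) * G.mot (p i) = 0 →
      ∀ F ∈ 𝒜, ∑ i, (a i : F.A) * F.Z (p i) = 0

/-- there are integers `c_i` of absolute value at most `B`, such that the indices `w_i(s)` with
`c_i ≠ 0` have the same weight, `∑ c_i mot(w_i(s)) = 0`, and `∑ c_i Z(w_i(s)) ≠ 0` for a family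
in `𝒜` -/
def Exceptional (G : MotivicValues) (𝒜 : Set StuffleFamily) {k r : ℕ} (B : ℝ)
    (w : Fin r → List (ℕ × (Fin k → ℕ))) (s : Fin k → ℕ) : Prop :=
  ∃ (n : ℕ) (c : Fin r → ℤ), (∀ i, |(c i : ℝ)| ≤ B) ∧
    (∀ i, c i ≠ 0 → (index s (w i)).sum = n) ∧ ∑ i, (c i : G.H) * G.mot (index s (w i)) = 0 ∧
    ∃ F ∈ 𝒜, ∑ i, (c i : F.A) * F.Z (index s (w i)) ≠ 0

/-- for all patterns with fixed parts of weight at most `W` and all `κ` there is `K` such that for
all `C` and all sufficiently large `N` at most `K N ^ (k - 1)` of the tuples `s ∈ [N, κ N] ^ k` are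
exceptional for the height `C ^ N` -/
def AlmostAll (G : MotivicValues) (𝒜 : Set StuffleFamily) (W : ℕ) : Prop :=
  ∀ (k r κ : ℕ) (w : Fin r → List (ℕ × (Fin k → ℕ))), (∀ i, Pattern (w i)) →
    (∀ i, (fixedPart (w i)).sum ≤ W) → ∃ K : ℕ, ∀ C : ℝ, ∃ N0 : ℕ, ∀ N : ℕ, N0 ≤ N →
      {s : Fin k → ℕ | (∀ j, N ≤ s j ∧ s j ≤ κ * N) ∧ Exceptional G 𝒜 (C ^ N) w s}.ncard ≤
        K * N ^ (k - 1)

open Finset Pool.Agent.X90.DC
open Pool.Agent.X90.DB (Ad ix ex ex_ne ex_nil)

theorem trunc_eq : ∀ l m, trunc l m = Pool.Agent.Y760.ZG.hr l m := by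
  intro l
  induction l with
  | nil => intro m; rw [trunc, Pool.Agent.Y760.ZG.hr]
  | cons s l ih =>
    intro m
    rw [trunc, Pool.Agent.Y760.ZG.hr]
    exact Finset.sum_congr rfl fun j _ => by rw [ih]

theorem mzv_eq : ∀ l, mzv l = Pool.Agent.Y760.ZG.mz l := by
  intro l
  cases l with
  | nil => rw [mzv, Pool.Agent.Y760.ZG.mz]
  | cons s l =>
    rw [mzv, Pool.Agent.Y760.ZG.mz]
    exact tsum_congr fun k => by rw [trunc_eq]

theorem stuffles_eq : ∀ u v, stuffles u v = Pool.Agent.Y760.ZF.sti u v := by
  intro u v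
  induction u, v using Pool.Agent.Y760.ZF.sti.induct with
  | case1 v => rw [stuffles, Pool.Agent.Y760.ZF.sti]
  | case2 x u => rw [stuffles, Pool.Agent.Y760.ZF.sti]
  | case3 x u y v ih1 ih2 ih3 => rw [stuffles, Pool.Agent.Y760.ZF.sti, ih1, ih2, ih3]

theorem adm_iff : ∀ u, AdmissibleIndex u ↔ Ad u := by
  intro u
  cases u <;> exact Iff.rfl

theorem fixedPart_eq {k : ℕ} : ∀ w : List (ℕ × (Fin k → ℕ)), fpx w = fixedPart w := by
  intro w
  induction w with
  | nil => rfl
  | cons u w ih =>
    rw [fixedPart, fpx, ih]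

/-- the same data in the library -/
def toMot (G : MotivicValues) : Pool.Agent.X90.DK.Mot where
  H := G.H
  Z := G.mot
  nil := G.mot_nil
  mul u v hu hv := by rw [G.stuffle u v ((adm_iff u).2 hu) ((adm_iff v).2 hv), stuffles_eq]
  per := G.per
  per_Z w hw := by rw [G.per_mot w ((adm_iff w).2 hw), mzv_eq]

theorem has_stuffle (F : StuffleFamily) :
    ∀ u v, Ad u → Ad v → F.Z u * F.Z v = ((Pool.Agent.Y760.ZF.sti u v).map F.Z).sum := by
  intro u v hu hv
  rw [F.stuffle u v ((adm_iff u).2 hu) ((adm_iff v).2 hv), stuffles_eq]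

theorem rel_finset {G : MotivicValues} {𝒜 : Set StuffleFamily} {n : ℕ} (h : HoldsInWeight G 𝒜 n)
    {F : StuffleFamily} (hF : F ∈ 𝒜) {ι : Type} (S : Finset ι) (p : ι → List ℕ)
    (hp : ∀ j ∈ S, AdmissibleIndex (p j) ∧ (p j).sum = n) (a : ι → ℤ)
    (h0 : ∑ j ∈ S, (a j : G.H) * G.mot (p j) = 0) : ∑ j ∈ S, (a j : F.A) * F.Z (p j) = 0 := by
  classical
  have e : ∀ {B : Type} [AddCommMonoid B] (f : ι → B), ∑ i : Fin S.card, f (S.equivFin.symm i).1 =
      ∑ j ∈ S, f j := by
    intro B _ f
    rw [S.equivFin.symm.sum_comp fun j : S => f j.1]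
    exact sum_coe_sort S f
  have h1 := h S.card (fun i => p (S.equivFin.symm i).1)
    (fun i => hp _ (S.equivFin.symm i).2) (fun i => a (S.equivFin.symm i).1)
    ((e fun j => (a j : G.H) * G.mot (p j)).trans h0) F hF
  exact (e fun j => (a j : F.A) * F.Z (p j)).symm.trans h1

theorem almost_of {G : MotivicValues} {𝒜 : Set StuffleFamily} {W : ℕ}
    (h : ∀ n ≤ W, HoldsInWeight G 𝒜 n) : AlmostAll G 𝒜 W := by
  classical
  intro k r κ w hw hW
  have hch : CharZero G.H := algebraRat.charZero G.H
  obtain ⟨m, idx, cc, p, v, hpv, hexp, hall⟩ :=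
    Pool.Agent.X90.DK.linH k r w (fun i => (hw i).2) κ
  obtain ⟨K, hK⟩ := hall (toMot G)
  refine ⟨K, fun C => ?_⟩
  obtain ⟨N0, hN0⟩ := hK C
  refine ⟨N0 + 2, fun N hN => ?_⟩
  have hfin : {s : Fin k → ℕ | (∀ j, N ≤ s j ∧ s j ≤ κ * N) ∧
      Exceptional G 𝒜 (C ^ N) w s}.Finite := by
    refine (Fintype.piFinset fun _ : Fin k => Finset.Icc N (κ * N)).finite_toSet.subset ?_
    rintro s ⟨hs, -⟩
    rw [Finset.mem_coe, Fintype.mem_piFinset]
    exact fun j => Finset.mem_Icc.2 (hs j)
  rw [Set.ncard_eq_toFinset_card _ hfin]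
  refine hN0 N (by omega) hfin.toFinset fun s hs => ?_
  rw [Set.Finite.mem_toFinset] at hs
  obtain ⟨hs, n, c, hcH, hcn, hc0, F, hF, hF0⟩ := hs
  have hs2 : ∀ j, 2 ≤ s j := fun j => le_trans (by omega) (hs j).1
  have hix : ∀ i, index s (w i) = ix s (w i) := fun i => rfl
  refine ⟨hs, c, hcH, hc0, ?_⟩
  by_contra hcon
  push Not at hcon
  apply hF0
  have h1 : ∀ i, F.Z (index s (w i)) = ex F.Z (ix s (w i)) := by
    intro i
    rw [hix]
    refine (ex_ne F.Z fun h0 => (hw i).1 ?_).symm
    have h0' : (w i).map (fun u => u.1 + ∑ j, u.2 j * s j) = [] := h0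
    rwa [List.map_eq_nil_iff] at h0'
  simp only [h1]
  rw [hexp F.A F.Z (has_stuffle F) s hs2 c]
  rw [← sum_fiberwise_of_maps_to (s := univ) (t := univ.image fun j => ix s (v j))
    (g := fun j => ix s (v j)) (fun j _ => mem_image_of_mem _ (mem_univ j))]
  refine sum_eq_zero fun u _ => ?_
  -- the part of the word `u`
  have h2 : ∑ j with ix s (v j) = u, ((c (idx j) * cc j : ℤ) : G.H) * G.mot (p j) = 0 := hcon u
  have h3 : ∑ j with ix s (v j) = u, ((c (idx j) * cc j : ℤ) : F.A) *
      (ex F.Z (p j) * ex F.Z (ix s (v j))) =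
      (∑ j with ix s (v j) = u ∧ c (idx j) ≠ 0, ((c (idx j) * cc j : ℤ) : F.A) * ex F.Z (p j)) *
        ex F.Z u := by
    rw [sum_mul, ← filter_filter, sum_filter (p := fun j => c (idx j) ≠ 0)]
    refine sum_congr rfl fun j hj => ?_
    rw [mem_filter] at hj
    rw [hj.2]
    split_ifs with h
    · ring
    · push Not at h
      rw [h]
      simp
  have h4 : ∑ j with ix s (v j) = u ∧ c (idx j) ≠ 0, ((c (idx j) * cc j : ℤ) : G.H) *
      G.mot (p j) = 0 := by
    rw [← h2, ← filter_filter, sum_filter (p := fun j => c (idx j) ≠ 0)]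
    refine sum_congr rfl fun j hj => ?_
    split_ifs with h
    · rfl
    · push Not at h
      rw [h]
      simp
  rw [h3]
  have hwt : ∀ j ∈ univ.filter fun j => ix s (v j) = u ∧ c (idx j) ≠ 0,
      (p j).sum = n - u.sum ∧ (p j).sum ≤ W := by
    intro j hj
    rw [mem_filter] at hj
    have g1 := (hpv j).2.2.2 s
    have g2 := hcn (idx j) hj.2.2
    rw [hix] at g2
    rw [hj.2.1] at g1
    refine ⟨by omega, ?_⟩
    obtain ⟨t, ht⟩ := (hpv j).2.1
    have g3 := hW (idx j)
    rw [← fixedPart_eq, ← ht, List.sum_append] at g3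
    omega
  rcases (univ.filter fun j => ix s (v j) = u ∧ c (idx j) ≠ 0).eq_empty_or_nonempty with he | he
  · rw [he]
    simp
  obtain ⟨j0, hj0⟩ := he
  have hnW : n - u.sum ≤ W := by
    have := hwt j0 hj0
    omega
  rcases Nat.eq_zero_or_pos (n - u.sum) with hq | hq
  · have h5 : ∀ j ∈ univ.filter fun j => ix s (v j) = u ∧ c (idx j) ≠ 0, p j = [] := by
      intro j hj
      rcases (hpv j).1 with h | h
      · exact h
      · have := Pool.Agent.X90.DD.two_le_sum h
        have := (hwt j hj).1
        omega
    have h6 : ∑ j with ix s (v j) = u ∧ c (idx j) ≠ 0, (c (idx j) * cc j) = 0 := by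
      have h7 : ∑ j with ix s (v j) = u ∧ c (idx j) ≠ 0, ((c (idx j) * cc j : ℤ) : G.H) = 0 := by
        rw [← h4]
        refine sum_congr rfl fun j hj => ?_
        rw [h5 j hj, G.mot_nil, mul_one]
      rw [← Int.cast_sum, Int.cast_eq_zero] at h7
      exact h7
    have h8 : ∑ j with ix s (v j) = u ∧ c (idx j) ≠ 0, ((c (idx j) * cc j : ℤ) : F.A) *
        ex F.Z (p j) = ((∑ j with ix s (v j) = u ∧ c (idx j) ≠ 0, (c (idx j) * cc j) : ℤ) :
          F.A) := by
      rw [Int.cast_sum]
      refine sum_congr rfl fun j hj => ?_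
      rw [h5 j hj, ex_nil, mul_one]
    rw [h8, h6, Int.cast_zero, zero_mul]
  · have h5 : ∀ j ∈ univ.filter fun j => ix s (v j) = u ∧ c (idx j) ≠ 0,
        AdmissibleIndex (p j) ∧ (p j).sum = n - u.sum := by
      intro j hj
      refine ⟨(adm_iff _).2 ?_, (hwt j hj).1⟩
      rcases (hpv j).1 with h | h
      · have := (hwt j hj).1
        rw [h, List.sum_nil] at this
        omega
      · exact h
    have h6 := rel_finset (h _ hnW) hF _ p h5 (fun j => c (idx j) * cc j) h4
    have h7 : ∑ j with ix s (v j) = u ∧ c (idx j) ≠ 0, ((c (idx j) * cc j : ℤ) : F.A) *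
        ex F.Z (p j) = ∑ j with ix s (v j) = u ∧ c (idx j) ≠ 0, ((c (idx j) * cc j : ℤ) : F.A) *
        F.Z (p j) := by
      refine sum_congr rfl fun j hj => ?_
      rw [ex_ne F.Z (Pool.Agent.X90.DB.ad_ne ((adm_iff _).1 (h5 j hj).1))]
    rw [h7, h6, zero_mul]

theorem of_almost {G : MotivicValues} {𝒜 : Set StuffleFamily} {W : ℕ} (h : AlmostAll G 𝒜 W) :
    ∀ n ≤ W, HoldsInWeight G 𝒜 n := by
  classical
  intro n hn m p hp a ha F hF
  by_contra hne
  -- constant patterns
  let w : Fin m → List (ℕ × (Fin 1 → ℕ)) := fun i => (p i).map fun b => (b, 0)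
  have hix : ∀ (s : Fin 1 → ℕ) i, index s (w i) = p i := by
    intro s i
    rw [index, List.map_map]
    conv_rhs => rw [← List.map_id (p i)]
    exact List.map_congr_left fun b _ => by simp
  have hpw : ∀ l : List ℕ, fixedPart (l.map fun b => ((b, 0) : ℕ × (Fin 1 → ℕ))) = l := by
    intro l
    induction l with
    | nil => rfl
    | cons b l ih =>
      rw [List.map_cons, fixedPart, if_pos rfl, ih]
  obtain ⟨K, hK⟩ := h 1 m 2 w (fun i => by
      obtain ⟨h1, -⟩ := hp i
      rcases hpi : p i with _ | ⟨a, l⟩
      · rw [hpi] at h1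
        exact h1.elim
      · rw [hpi] at h1
        refine ⟨?_, ?_, ?_⟩
        · simp only [w, hpi]
          exact List.cons_ne_nil _ _
        · intro u hu
          simp only [w, hpi, List.map_cons, List.head?_cons, Option.mem_some_iff] at hu
          rw [← hu]
          exact Or.inr h1.1
        · intro u hu
          simp only [w, hpi, List.map_cons, List.mem_cons, List.mem_map] at hu
          rcases hu with rfl | ⟨b, hb, rfl⟩
          · exact Or.inr (le_trans (by norm_num) h1.1)
          · exact Or.inr (h1.2 b hb)) fun i => by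
      rw [hpw, (hp i).2]
      exact hn
  set C : ℝ := 1 + ∑ i, |(a i : ℝ)| with hC
  have hC1 : 1 ≤ C := by
    have : 0 ≤ ∑ i, |(a i : ℝ)| := Finset.sum_nonneg fun _ _ => abs_nonneg _
    linarith
  obtain ⟨N0, hN0⟩ := hK C
  have h1 := hN0 (N0 + K + 1) (by omega)
  set N := N0 + K + 1 with hN
  have h2 : (((Finset.Icc N (2 * N)).image fun (a : ℕ) (_ : Fin 1) => a : Finset (Fin 1 → ℕ)) :
      Set (Fin 1 → ℕ)) ⊆ {s : Fin 1 → ℕ | (∀ j, N ≤ s j ∧ s j ≤ 2 * N) ∧
        Exceptional G 𝒜 (C ^ N) w s} := by
    intro s hs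
    rw [Finset.mem_coe, Finset.mem_image] at hs
    obtain ⟨b, hb, rfl⟩ := hs
    rw [Finset.mem_Icc] at hb
    refine ⟨fun _ => hb, n, a, fun i => ?_, fun i _ => ?_, ?_, F, hF, ?_⟩
    · have h3 := Finset.single_le_sum (f := fun i => |(a i : ℝ)|)
        (fun _ _ => abs_nonneg _) (Finset.mem_univ i)
      have h4 : C ≤ C ^ N := le_self_pow₀ hC1 (by omega)
      linarith
    · rw [hix, (hp i).2]
    · simp only [hix]
      exact ha
    · simp only [hix]
      exact hne
  have hfin : {s : Fin 1 → ℕ | (∀ j, N ≤ s j ∧ s j ≤ 2 * N) ∧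
        Exceptional G 𝒜 (C ^ N) w s}.Finite := by
    refine (Fintype.piFinset fun _ : Fin 1 => Finset.Icc N (2 * N)).finite_toSet.subset ?_
    rintro s ⟨hs, -⟩
    rw [Finset.mem_coe, Fintype.mem_piFinset]
    exact fun j => Finset.mem_Icc.2 (hs j)
  have h3 := (Set.ncard_le_ncard h2 hfin).trans h1
  rw [Set.ncard_coe_finset, Finset.card_image_of_injective _ fun a b hab => congrFun hab 0,
    Nat.card_Icc, Nat.sub_self, pow_zero, mul_one] at h3
  omega

/-- **Relations between motivic multiple zeta values, for almost all families of indices.** Let `G`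
be a `ℚ`-algebra without zero divisors with elements for the indices that have the stuffle product
and a period map (for example the motivic multiple zeta values), and `𝒜` a class of families with
the stuffle product (for example the classes of the indices modulo the double shuffle relations).
For every `W`: the linear relations of weight `n` in `G` hold on `𝒜` for all `n ≤ W` if and only if,
for all patterns with fixed parts of weight at most `W` and for almost all tuples, the relations in
`G` of height `C ^ N` between the elements of the patterns hold on `𝒜`. -/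
theorem result (G : MotivicValues) (𝒜 : Set StuffleFamily) (W : ℕ) :
    (∀ n ≤ W, HoldsInWeight G 𝒜 n) ↔ AlmostAll G 𝒜 W :=
  ⟨almost_of, of_almost⟩

end Pool.Agent.Results.MP_a57f33_nt.AlmostAllMotivic
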