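import Pool.Agent.X39.Near.Mhz

/-!
# Polynomials in multiple Hurwitz zeta values and the stuffle ideal, at ALL algebraic points close to any number outside a set of dimension zero

The question asks whether the double shuffle relations imply all relations between motivic multiple zeta values. For the
functions `ζ(s; z)`, the sums of `1 / ((z + n₁) ^ s₁ ⋯ (z + n_k) ^ s_k)` over `0 ≤ n₁ < ⋯ < n_k` (`mhz`), whose values at
`z = 1` are the multiple zeta values, all relations are stuffle relations. We prove the same for their VALUES, outside ONE set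
`E` of complex numbers of Hausdorff dimension `0` (for all degrees, weights, number fields and scales), with coefficients in
the ring generated by arbitrary constants `ξ_i` and quantitatively: for every complex `x` and every polynomial
`P = ∑ c_e(ξ) X ^ e` of bounded degree and polynomial height, the value of `P` at the numbers `ζ(s; t)`, at ANY algebraic
point `t` of a number field close to `x`, is at least `T ^ (-B)` times each coefficient of the linear form to which `P` is
congruent modulo the stuffle relations. So only the elements of the stuffle ideal are relations.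

Proof: the algebra of the functions `ζ(s; z)` is generated by functions algebraically independent over `ℂ(z)`, the `ζ(s; z)`
being linearly independent polynomials in them (`Pool.Agent.X142.MZ`); the levels of the library give, on compact sets, at
most `C T ^ ε` exceptional points of height `T`, for every `ε > 0`, and so a limsup set of dimension `0`
(`Pool.Agent.X39.Near`); the countably many finite sets of indices are treated at the same time.
-/

set_option autoImplicit false

open MvPolynomial NumberField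

namespace Pool.Agent.Results.MP_a57f33_nt.ApproximationsOfAllNumbers

open Pool.Agent.X39.Near (Size)
open Pool.Agent.X142.MZ (mhz Adm stuffle)

/-- the ideal of the polynomials in variables `X_s` generated by `X_∅ - 1` and the stuffle relations
`X_u X_v - ∑_{w ∈ u * v} X_w` for admissible `u`, `v` -/
noncomputable def stuffleIdeal (R : Type) [CommRing R] : Ideal (MvPolynomial (List ℕ) R) :=
  Ideal.span ({X [] - 1} ∪ {p | ∃ u v, Adm u ∧ Adm v ∧ p = X u * X v - ((stuffle u v).map X).sum})

/-- The integers `n_{e, w}`, `w ∈ W`, linearize the polynomials with monomials in `M`: modulo the stuffle relations,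
`∑_{e ∈ M} c_e X ^ e` is congruent to the linear form `∑_{w ∈ W} (∑_{e ∈ M} n_{e, w} c_e) X_w`, over every ring. -/
def Linearizes (M : Finset (List ℕ →₀ ℕ)) (W : Finset (List ℕ)) (n : (List ℕ →₀ ℕ) → List ℕ →₀ ℤ) : Prop :=
  ∀ (R : Type) [CommRing R] (c : (List ℕ →₀ ℕ) → R),
    ∑ e ∈ M, monomial e (c e) - ∑ w ∈ W, C (∑ e ∈ M, ((n e w : ℤ) : R) * c e) * X w ∈ stuffleIdeal R

/-- For all polynomials `c_e` of degree at most `d` in each of the variables `X_1, …, X_g`, with coefficients in the integers
of `F` all of whose conjugates are at most `T ^ A`, the absolute value of `∑_{e ∈ M} c_e(ξ) ζ(t) ^ e`, where `ζ(t) ^ e` is the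
monomial `e` in the numbers `ζ(s; t)`, is at least `T ^ (-B)` times that of each coefficient `∑_{e ∈ M} n_{e, w} c_e(ξ)`,
`w ∈ W`, of the linear form. -/
def Apart {g : ℕ} (ξ : Fin g → ℂ) (M : Finset (List ℕ →₀ ℕ)) (W : Finset (List ℕ)) (n : (List ℕ →₀ ℕ) → List ℕ →₀ ℤ)
    (F : Type) [Field F] [NumberField F] (ι : F →+* ℂ) (d : ℕ) (A B T : ℝ) (t : F) : Prop :=
  ∀ c : (List ℕ →₀ ℕ) → MvPolynomial (Fin g) (𝓞 F), (∀ e ∈ M, ∀ v, (c e).degreeOf v ≤ d) →
    (∀ e ∈ M, ∀ m (φ : F →+* ℂ), ‖φ ((c e).coeff m : 𝓞 F)‖ ≤ T ^ A) → ∀ w ∈ W,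
    T ^ (-B) * ‖∑ e ∈ M, ((n e w : ℤ) : ℂ) * eval₂ (ι.comp (algebraMap (𝓞 F) F)) ξ (c e)‖ ≤
      ‖∑ e ∈ M, eval₂ (ι.comp (algebraMap (𝓞 F) F)) ξ (c e) * e.prod fun s k => mhz s (ι t) ^ k‖

/-- **Theorem.** Let `ξ_1, …, ξ_g` be complex numbers. There is a set `E` of complex numbers of Hausdorff dimension `0` such
that for all finite sets `M` of monomials in the variables `X_s`, `s` admissible, there are a finite set `W` of admissible
indices and integers `n_{e, w}` which linearize the polynomials with monomials in `M`, and: (1) for all complex `x` outside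
`E`, all number fields `F` with an embedding `ι` in `ℂ`, all `d`, `A` and `ω > 0` there are `B`, `T₁` such that for all
`T ≥ T₁` and all `t ∈ F`, quotients of integers with conjugates at most `T`, with `|ι t - x| ≤ T ^ (-ω)`, the values of these
polynomials at the numbers `ζ(s; t)` are bounded below by the coefficients of the linear forms (`Apart`); (2) for all real
`x` outside `E` and all `d`, `A` there is `B` such that this holds over `ℚ` at the convergents `t` of `x`, at the level of
the denominator, from some point on. -/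
theorem result {g : ℕ} (ξ : Fin g → ℂ) :
    ∃ E : Set ℂ, dimH E = 0 ∧ ∀ M : Finset (List ℕ →₀ ℕ), (∀ e ∈ M, ∀ s ∈ e.support, Adm s) →
      ∃ (W : Finset (List ℕ)) (n : (List ℕ →₀ ℕ) → List ℕ →₀ ℤ), (∀ w ∈ W, Adm w) ∧ Linearizes M W n ∧
      (∀ x : ℂ, x ∉ E → ∀ (F : Type) [Field F] [NumberField F] (ι : F →+* ℂ)
        (d A : ℕ) (ω : ℝ), 0 < ω → ∃ B T₁ : ℝ, ∀ T : ℝ, T₁ ≤ T → ∀ t : F, Size F T t →
          ‖ι t - x‖ ≤ T ^ (-ω) → Apart ξ M W n F ι d A B T t) ∧
      ∀ x : ℝ, (x : ℂ) ∉ E → ∀ d A : ℕ, ∃ (B : ℝ) (n₀ : ℕ), ∀ k : ℕ,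
        n₀ ≤ k → Apart ξ M W n ℚ (algebraMap ℚ ℂ) d A B (x.convergent k).den (x.convergent k) := by
  obtain ⟨E, h1, hE, h2⟩ := Pool.Agent.X39.Near.mhz_lin ξ
  refine ⟨E, h1, fun M hM => ?_⟩
  obtain ⟨W, hW, n, hn, T₀, -, -, H⟩ := Pool.Agent.X39.Near.poly_of_bound M hM
  obtain ⟨h3, h4⟩ := h2 W hW
  refine ⟨W, n, hW, fun R _ c => hn R c, fun x hx F _ _ ι d A ω hω => ?_, fun x hx d A => ?_⟩
  · obtain ⟨B, T₁, h5⟩ := h3 x hx F ι d (A + 1) ω hω
    refine ⟨B, max T₀ T₁, fun T hT t ht htx => ?_⟩
    have h6 := h5 T ((le_max_right _ _).trans hT) t ht htx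
    push_cast at h6
    exact H g ξ F ι d A B T t ((le_max_left _ _).trans hT) h6
  · obtain ⟨B, n₀, h5⟩ := h4 x hx d (A + 1)
    have hirr : Irrational x := by
      intro h
      apply hx
      apply hE
      obtain ⟨y, rfl⟩ := h
      show IsAlgebraic ℚ (((y : ℝ)) : ℂ)
      have h4 : (((y : ℝ)) : ℂ) = algebraMap ℚ ℂ y := by simp
      rw [h4]
      exact isAlgebraic_algebraMap y
    obtain ⟨n₁, h7⟩ := Pool.Agent.X39.Near.den_conv hirr T₀
    refine ⟨B, max n₀ n₁, fun k hk => ?_⟩
    have h6 := h5 k ((le_max_left _ _).trans hk)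
    push_cast at h6
    exact H g ξ ℚ (algebraMap ℚ ℂ) d A B _ _ (h7 k ((le_max_right _ _).trans hk)).le h6

end Pool.Agent.Results.MP_a57f33_nt.ApproximationsOfAllNumbers
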