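import Mathlib
import Pool.Agent.X142.MZ.Var

set_option autoImplicit false

namespace Pool.Agent.Results.MP_a57f33_nt.HurwitzArguments

open NumberField MvPolynomial

/-- The multiple Hurwitz zeta function
`ζ(s₁,…,s_r; z) = Σ_{0 ≤ k₁ < k₂ < … < k_r} Π (z + k_i)^{-s_i}`, defined by summing over `k₁` last:
`ζ(s₁,…,s_r; z) = Σ_{n ≥ 0} (z+n)^{-s₁} ζ(s₂,…,s_r; z+n+1)`. At `z = 1` it is the multiple zeta value. -/
noncomputable def mhz : List ℕ → ℂ → ℂ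
  | [], _ => 1
  | s :: w, z => ∑' n : ℕ, ((z + n) ^ s)⁻¹ * mhz w (z + n + 1)

/-- Admissible indices: positive entries, the last entry is not `1`; the empty index is admissible. -/
def Adm (s : List ℕ) : Prop := (∀ a ∈ s, 1 ≤ a) ∧ s.getLast? ≠ some 1

/-- `HeightLe F T x`: `x = a / c` with algebraic integers `a`, `c` of `F`, all of whose conjugates are at
most `T` in absolute value. -/
def HeightLe (F : Type) [Field F] [NumberField F] (T : ℝ) (x : F) : Prop :=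
  ∃ a c : 𝓞 F, c ≠ 0 ∧ (∀ φ : F →+* ℂ, ‖φ a‖ ≤ T ∧ ‖φ c‖ ≤ T) ∧ x = a / c

lemma mhz_eq : ∀ (w : List ℕ) (z : ℂ), mhz w z = Pool.Agent.X142.MZ.mhz w z
  | [], _ => rfl
  | s :: w, z => by
    rw [mhz, Pool.Agent.X142.MZ.mhz]
    exact tsum_congr fun n => by rw [mhz_eq w]

/-- Relations come from families: at almost all arguments a polynomial near relation between multiple
zeta values is a near identity on the whole set of arguments. -/
theorem result (M : Finset (List ℕ →₀ ℕ)) (hM : ∀ d ∈ M, ∀ s ∈ d.support, Adm s) (L : Set ℂ)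
    (hL : IsCompact L) (hL0 : ∀ z ∈ L, ∀ n : ℕ, z ≠ -n) (m g : ℕ) (A ε : ℝ) (hε : 0 < ε) :
    ∃ B C₁ T₀ : ℝ, ∀ (F : Type) [Field F] [NumberField F], Module.finrank ℚ F ≤ m →
      ∀ (ι : F →+* ℂ) (ξ : Fin g → ℂ) (T : ℝ), T₀ ≤ T →
      ∃ X : Finset F, (X.card : ℝ) ≤ C₁ * T ^ ε ∧ ∀ x : F, ι x ∈ L → HeightLe F T x → x ∉ X →
        ∀ c : (List ℕ →₀ ℕ) → Fin g → 𝓞 F, (∀ d ∈ M, ∀ i (φ : F →+* ℂ), ‖φ (c d i)‖ ≤ T ^ A) →
          ∀ z ∈ L, ‖∑ d ∈ M, (∑ i, ξ i * ι (c d i)) * d.prod fun s k => mhz s z ^ k‖ ≤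
            T ^ B * ‖∑ d ∈ M, (∑ i, ξ i * ι (c d i)) * d.prod fun s k => mhz s (ι x) ^ k‖ := by
  simp only [mhz_eq]
  exact Pool.Agent.X142.MZ.spread M hM L hL hL0 m g A ε hε

end Pool.Agent.Results.MP_a57f33_nt.HurwitzArguments
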