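import Pool.Agent.Results.MP_a57f33_nt.AlmostAllMotivic
import Pool.Agent.X174.WinInd

/-!
# MP_a57f33_nt: relations between motivic multiple zeta values, for ALL indices in cubes around thin sequences of points

Q1 says that every linear relation between motivic multiple zeta values follows from the regularized double shuffle
relations, that is, it holds for the classes of the indices in the algebra defined by these relations. This algebra is
commutative and the classes have the stuffle product.

Let `H` be the algebra of motivic multiple zeta values, more generally any `ℚ`-algebra without zero divisors, with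
elements for the indices that have the stuffle product, and a ring homomorphism `per : H → ℂ` that maps these elements to
the multiple zeta values. Let `𝒜` be any class of families of elements of commutative rings that have the stuffle
product, for example the single family of the classes modulo the double shuffle relations. The following are equivalent.

(a) For every `n ≤ W` the linear relations of weight `n` between the elements of `H` hold on `𝒜`.

(b) For every `k ≥ 1`, every sequence `v ≥ 1` of exponent of convergence at most `τ` (for `v_i = (i + 1) ^ a` this is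
`1 / a`, for `v_i = b ^ i` it is `0`) and every `ρ < 1` there is ONE set `E ⊂ ℝ^k` of Hausdorff dimension at most
`(k - 1 + τ) / (1 - ρ)` such that for each `x` outside `E` with positive coordinates, all patterns `w_1, …, w_r` (indices
whose entries are fixed numbers or linear forms `b + u_1 s_1 + ⋯ + u_k s_k` in variables) in which the fixed entries in
front of the first entry that depends on the variables have sum at most `W`, and all `C`, for all but finitely many `i`:
for ALL natural numbers `s_1, …, s_k` with `|s_j - x_j v_i| ≤ v_i ^ ρ` every relation `∑ c_i mot(w_i(s)) = 0` in `H` between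
elements of the same weight, with integers `|c_i| ≤ C ^ v_i`, holds on `𝒜`.

So Q1 is equivalent to (b) for all `W`, and (b) holds for all `W` up to which Q1 is known by computation. Nothing about the
real multiple zeta values is assumed: all relations are relations in `H`.

The number of exceptions in `[N, κ N] ^ k` is from the result `AlmostAllMotivic` of helper90.
-/

set_option autoImplicit false

namespace Pool.Agent.Results.MP_a57f33_nt.IndicesInCubes

open AlmostAllMotivic (mzv AdmissibleIndex Pattern index fixedPart MotivicValues StuffleFamily HoldsInWeight Exceptional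
  AlmostAll)

/-- the exponent of convergence of the sequence `v` is at most `τ` -/
def ExpLe (v : ℕ → ℝ) (τ : ℝ) : Prop := ∀ t : ℝ, τ < t → Summable (fun n : ℕ => (v n) ^ (-t))

/-- For all `k ≥ 1`, all sequences `v ≥ 1` of exponent of convergence at most `τ` and all `ρ < 1` there is a set `E ⊂ ℝ^k`
of Hausdorff dimension at most `(k - 1 + τ) / (1 - ρ)` such that for all `x` outside `E` with positive coordinates, all
patterns with fixed parts of weight at most `W` and all `C`, for all but finitely many `i`, no tuple `s` with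
`|s_j - x_j v_i| ≤ v_i ^ ρ` is exceptional for the height `C ^ v_i`. -/
def InCubes (G : MotivicValues) (𝒜 : Set StuffleFamily) (W : ℕ) : Prop :=
  ∀ (k : ℕ), 1 ≤ k → ∀ (v : ℕ → ℝ) (τ ρ : ℝ), (∀ i, 1 ≤ v i) → 0 ≤ τ → ExpLe v τ → ρ < 1 →
    ∃ E : Set (Fin k → ℝ), dimH E ≤ ENNReal.ofReal (((k : ℝ) - 1 + τ) / (1 - ρ)) ∧
      ∀ x : Fin k → ℝ, x ∉ E → (∀ j, 0 < x j) →
        ∀ (r : ℕ) (w : Fin r → List (ℕ × (Fin k → ℕ))), (∀ l, Pattern (w l)) →
          (∀ l, (fixedPart (w l)).sum ≤ W) → ∀ C : ℝ, 1 ≤ C → ∃ i₀ : ℕ, ∀ i : ℕ, i₀ ≤ i →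
            ∀ s : Fin k → ℕ, (∀ j, |(s j : ℝ) - x j * v i| ≤ (v i) ^ ρ) → ¬ Exceptional G 𝒜 (C ^ (v i)) w s

theorem cubes_of_almost {G : MotivicValues} {𝒜 : Set StuffleFamily} {W : ℕ} (hA : AlmostAll G 𝒜 W) :
    InCubes G 𝒜 W := by
  intro k hk v τ ρ hv hτ hE hρ
  have key : ∀ z : (r : ℕ) × (Fin r → List (ℕ × (Fin k → ℕ))), ∃ E : Set (Fin k → ℝ),
      dimH E ≤ ENNReal.ofReal (((k : ℝ) - 1 + τ) / (1 - ρ)) ∧
      ((∀ l, Pattern (z.2 l)) → (∀ l, (fixedPart (z.2 l)).sum ≤ W) →
        ∀ x : Fin k → ℝ, x ∉ E → (∀ j, 0 < x j) → ∀ C : ℝ, 1 ≤ C → ∃ i₀ : ℕ, ∀ i : ℕ, i₀ ≤ i → ∀ s : Fin k → ℕ,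
          (∀ j, |(s j : ℝ) - x j * v i| ≤ (v i) ^ ρ) → ¬ Exceptional G 𝒜 (C ^ (v i)) z.2 s) := by
    rintro ⟨r, w⟩
    dsimp only
    by_cases hw : (∀ l, Pattern (w l)) ∧ ∀ l, (fixedPart (w l)).sum ≤ W
    · obtain ⟨E, h1, h2⟩ := Pool.Agent.X174.winInd hk (fun H s => Exceptional G 𝒜 H w s)
        (fun H H' s hH ⟨n, c, hc, h3⟩ => ⟨n, c, fun l => (hc l).trans hH, h3⟩)
        (fun κ => hA k r κ w hw.1 hw.2) hv hτ hE hρ
      exact ⟨E, h1, fun _ _ => h2⟩
    · exact ⟨∅, by simp, fun h h' => absurd ⟨h, h'⟩ hw⟩
  choose Es h1 h2 using key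
  refine ⟨⋃ z, Es z, ?_, fun x hx hx0 r w hw hW C hC => ?_⟩
  · rw [dimH_iUnion]
    exact iSup_le h1
  · exact h2 ⟨r, w⟩ hw hW x (fun hm => hx (Set.mem_iUnion.2 ⟨_, hm⟩)) hx0 C hC

/-- the converse: constant patterns -/
theorem holds_of_cubes {G : MotivicValues} {𝒜 : Set StuffleFamily} {W : ℕ} (hA : InCubes G 𝒜 W) :
    ∀ n ≤ W, HoldsInWeight G 𝒜 n := by
  classical
  intro n hn m p hp a ha F hF
  by_contra hne
  -- constant patterns
  let w : Fin m → List (ℕ × (Fin 1 → ℕ)) := fun i => (p i).map fun b => (b, 0)
  have hix : ∀ (s : Fin 1 → ℕ) i, index s (w i) = p i := by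
    intro s i
    rw [index, List.map_map]
    conv_rhs => rw [← List.map_id (p i)]
    exact List.map_congr_left fun b _ => by simp
  have hpw : ∀ l : List ℕ, fixedPart (l.map fun b => ((b, 0) : ℕ × (Fin 1 → ℕ))) = l := by
    intro l
    induction l with
    | nil => rfl
    | cons b l ih =>
      rw [List.map_cons, fixedPart, if_pos rfl, ih]
  set C : ℝ := 1 + ∑ i, |(a i : ℝ)| with hC
  have hC1 : 1 ≤ C := by
    have : 0 ≤ ∑ i, |(a i : ℝ)| := Finset.sum_nonneg fun _ _ => abs_nonneg _
    linarith
  obtain ⟨E, hE1, hE2⟩ := hA 1 le_rfl (fun n => (2 : ℝ) ^ n) 0 0 (fun n => one_le_pow₀ (by norm_num)) le_rfl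
    (Pool.Agent.Y854.GM.expLe_geom 2 (by norm_num)) one_pos
  obtain ⟨N, s, hno⟩ := Pool.Agent.X174.pick (P := fun V s => ¬ Exceptional G 𝒜 (C ^ V) w s) hE1
    fun x hx hx0 => hE2 x hx hx0 m w (fun i => by
      obtain ⟨h1, -⟩ := hp i
      rcases hpi : p i with _ | ⟨a, l⟩
      · rw [hpi] at h1
        exact h1.elim
      · rw [hpi] at h1
        refine ⟨?_, ?_, ?_⟩
        · simp only [w, hpi]
          exact List.cons_ne_nil _ _
        · intro u hu
          simp only [w, hpi, List.map_cons, List.head?_cons, Option.mem_some_iff] at hu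
          rw [← hu]
          exact Or.inr h1.1
        · intro u hu
          simp only [w, hpi, List.map_cons, List.mem_cons, List.mem_map] at hu
          rcases hu with rfl | ⟨b, hb, rfl⟩
          · exact Or.inr (le_trans (by norm_num) h1.1)
          · exact Or.inr (h1.2 b hb)) (fun i => by
      rw [hpw, (hp i).2]
      exact hn) C hC1
  have hV1 : (1 : ℝ) ≤ (2 : ℝ) ^ N := one_le_pow₀ (by norm_num)
  refine hno ⟨n, a, fun i => ?_, fun i _ => ?_, ?_, F, hF, ?_⟩
  · have h3 := Finset.single_le_sum (f := fun i => |(a i : ℝ)|)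
      (fun _ _ => abs_nonneg _) (Finset.mem_univ i)
    have h4 : C ≤ C ^ ((2 : ℝ) ^ N) := by
      calc C = C ^ (1 : ℝ) := (Real.rpow_one C).symm
        _ ≤ C ^ ((2 : ℝ) ^ N) := Real.rpow_le_rpow_of_exponent_le hC1 hV1
    refine le_trans ?_ h4
    linarith
  · rw [hix, (hp i).2]
  · simp only [hix]
    exact ha
  · simp only [hix]
    exact hne

/-- **Relations between motivic multiple zeta values, for all indices in cubes.** Let `G` be a `ℚ`-algebra without zero
divisors with elements for the indices that have the stuffle product and a period map (for example the motivic multiple zeta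
values), and `𝒜` a class of families with the stuffle product (for example the classes of the indices modulo the double
shuffle relations). For every `W`: the linear relations of weight `n` in `G` hold on `𝒜` for all `n ≤ W` if and only if
`InCubes G 𝒜 W`: for each `x` with positive coordinates outside a small set, for ALL tuples in cubes around the points
`x v_i`, the relations in `G` of height `C ^ v_i` between the elements of the patterns with fixed parts of weight at most `W`
hold on `𝒜`. The sequences `v_i = (i + 1) ^ a` and `v_i = b ^ i` have exponent of convergence at most `1 / a` and `0`. -/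
theorem result :
    (∀ (G : MotivicValues) (𝒜 : Set StuffleFamily) (W : ℕ), (∀ n ≤ W, HoldsInWeight G 𝒜 n) ↔ InCubes G 𝒜 W) ∧
    (∀ a : ℝ, 0 < a → ExpLe (fun n : ℕ => ((n : ℝ) + 1) ^ a) (1 / a)) ∧
    (∀ b : ℝ, 1 < b → ExpLe (fun n : ℕ => b ^ n) 0) :=
  ⟨fun G 𝒜 W => ⟨fun h => cubes_of_almost ((AlmostAllMotivic.result G 𝒜 W).1 h), holds_of_cubes⟩,
    fun κ hκ => Pool.Agent.Y854.GM.expLe_pow κ hκ, fun b hb => Pool.Agent.Y854.GM.expLe_geom b hb⟩

end Pool.Agent.Results.MP_a57f33_nt.IndicesInCubes
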